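import Mathlib
import Pool.Agent.Helper9.SK.St
import Pool.Agent.Helper48.BK.M_PS
import Pool.Agent.Helper48.BK.M_APZ

/-!
# Project SK, module WSM: window sums
-/

set_option autoImplicit false

noncomputable section

namespace Pool.Agent.Helper98.SK

open Finset ArithmeticFunction MeasureTheory
open Pool.Agent.Helper9.SK
open Pool.Agent.Helper48.BK (ex th Pz Vz lz gs Sx Apx)
open Pool.Agent.Helper60.GP (IsB II Err JJ)
open Pool.Agent.Helper15.AB (Th)
open Pool.Agent.Helper58.SU (dsc StWinu)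

/-- the window sum -/
private def Wk (X z h q a k : ℕ) : ℂ :=
  ∑ n ∈ (Ioc 0 (8 * X)).filter (fun n => k < n + h ∧ n ≤ k),
      (Dd X z n : ℂ) * ex ((n : ℝ) * ((a : ℝ) / q))

private lemma ex_class (n u q a : ℕ) (hq : 1 ≤ q) (h : n ≡ u [MOD q]) :
    ex ((n : ℝ) * ((a : ℝ) / q)) = ex ((u : ℝ) * ((a : ℝ) / q)) := by
  obtain ⟨m, hm⟩ := Nat.modEq_iff_dvd.1 h
  have hq0 : (q : ℝ) ≠ 0 := by
    have : (0 : ℝ) < q := by exact_mod_cast hq
    exact this.ne'
  have h1 : (u : ℝ) - n = q * m := by exact_mod_cast hm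
  have h2 : (u : ℝ) * ((a : ℝ) / q) = (n : ℝ) * ((a : ℝ) / q) + ((m * a : ℤ) : ℝ) := by
    have h3 : (u : ℝ) = n + q * m := by linarith
    rw [h3]
    push_cast
    field_simp
  rw [h2, Pool.Agent.Helper48.BK.ex_add_PS, Pool.Agent.Helper48.BK.ex_int_PS, mul_one]

private lemma th_nonneg (n : ℕ) : 0 ≤ th n := by
  unfold th
  split_ifs
  · exact Real.log_natCast_nonneg n
  · exact le_rfl

private lemma th_le (n : ℕ) : th n ≤ Real.log n := by
  unfold th
  split_ifs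
  · exact le_rfl
  · exact Real.log_natCast_nonneg n

private lemma lz_nonneg (z n : ℕ) : 0 ≤ lz z n := by
  have hV := Pool.Agent.Helper48.BK.Vz_pos_APZ z
  unfold lz
  split_ifs
  · exact (one_div_pos.2 hV).le
  · exact le_rfl

private lemma lz_le (z n : ℕ) : lz z n ≤ 1 / Vz z := by
  have hV := Pool.Agent.Helper48.BK.Vz_pos_APZ z
  unfold lz
  split_ifs
  · exact le_rfl
  · exact (one_div_pos.2 hV).le

private lemma Dd_le (X z n : ℕ) (D : ℝ) (hD : 0 ≤ D) (h1 : Real.log (8 * X) ≤ D)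
    (h2 : 1 / Vz z ≤ D) : |Dd X z n| ≤ D := by
  unfold Dd
  split_ifs with h
  · have hn : (0 : ℝ) < n := by
      have : 0 < n := by omega
      exact_mod_cast this
    have h3 : th n ≤ D := by
      refine (th_le n).trans (le_trans (Real.log_le_log hn ?_) h1)
      exact_mod_cast h.2
    have h4 : lz z n ≤ D := (lz_le z n).trans h2
    have h5 := th_nonneg n
    have h6 := lz_nonneg z n
    rw [abs_le]
    constructor <;> linarith
  · simpa using hD

private lemma card_win (X h k : ℕ) :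
    ((Ioc 0 (8 * X)).filter (fun n => k < n + h ∧ n ≤ k)).card ≤ h := by
  have h1 : (Ioc 0 (8 * X)).filter (fun n => k < n + h ∧ n ≤ k) ⊆ Ioc (k - h) k := by
    intro n hn
    rw [mem_filter, mem_Ioc] at hn
    rw [mem_Ioc]
    omega
  refine (card_le_card h1).trans ?_
  rw [Nat.card_Ioc]
  omega

private lemma Wk_le (X z h q a k : ℕ) (D : ℝ) (hD : 0 ≤ D) (h1 : Real.log (8 * X) ≤ D)
    (h2 : 1 / Vz z ≤ D) : ‖Wk X z h q a k‖ ^ 2 ≤ (h * D) ^ 2 := by
  refine pow_le_pow_left₀ (norm_nonneg _) ?_ 2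
  unfold Wk
  refine (norm_sum_le _ _).trans ?_
  calc ∑ n ∈ (Ioc 0 (8 * X)).filter (fun n => k < n + h ∧ n ≤ k),
        ‖(Dd X z n : ℂ) * ex ((n : ℝ) * ((a : ℝ) / q))‖
      ≤ ∑ n ∈ (Ioc 0 (8 * X)).filter (fun n => k < n + h ∧ n ≤ k), D := by
        refine sum_le_sum fun n _ => ?_
        rw [norm_mul, Pool.Agent.Helper48.BK.norm_ex_PS, mul_one, Complex.norm_real,
          Real.norm_eq_abs]
        exact Dd_le X z n D hD h1 h2
    _ = (((Ioc 0 (8 * X)).filter (fun n => k < n + h ∧ n ≤ k)).card : ℝ) * D := by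
        rw [sum_const, nsmul_eq_mul]
    _ ≤ h * D := by
        refine mul_le_mul_of_nonneg_right ?_ hD
        exact_mod_cast card_win X h k

private lemma Wk_zero (X z h q a k : ℕ) (hk : k ≤ 2 * X) : Wk X z h q a k = 0 := by
  unfold Wk
  refine sum_eq_zero fun n hn => ?_
  rw [mem_filter, mem_Ioc] at hn
  have h1 : Dd X z n = 0 := by
    unfold Dd
    rw [if_neg]
    omega
  rw [h1]
  simp

open Classical in
/-- error term of the model in a class -/
private def eu (z N h q u : ℕ) : ℝ :=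
  ∑ n ∈ (Ioc N (N + h)).filter (fun n => n ≡ u [MOD q]), lz z n -
    (if Nat.Coprime u q then (h : ℝ) / Nat.totient q else 0)

private lemma Wk_class (X z h q a N : ℕ) (hq : 1 ≤ q) (hN : 2 * X ≤ N) (hN' : N + h ≤ 8 * X) :
    Wk X z h q a (N + h) =
      ∑ u ∈ range q, ex ((u : ℝ) * ((a : ℝ) / q)) * ((dsc N h q u - eu z N h q u : ℝ) : ℂ) := by
  have h1 : (Ioc 0 (8 * X)).filter (fun n => N + h < n + h ∧ n ≤ N + h) = Ioc N (N + h) := by
    ext n
    rw [mem_filter, mem_Ioc, mem_Ioc]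
    omega
  unfold Wk
  rw [h1]
  have h2 : ∑ n ∈ Ioc N (N + h), (Dd X z n : ℂ) * ex ((n : ℝ) * ((a : ℝ) / q)) =
      ∑ n ∈ Ioc N (N + h), ((th n - lz z n : ℝ) : ℂ) * ex ((n : ℝ) * ((a : ℝ) / q)) := by
    refine sum_congr rfl fun n hn => ?_
    rw [mem_Ioc] at hn
    have : Dd X z n = th n - lz z n := by
      unfold Dd
      rw [if_pos]
      omega
    rw [this]
  rw [h2, ← sum_fiberwise_of_maps_to (t := range q) (g := fun n => n % q)
    (fun n _ => mem_range.2 (Nat.mod_lt _ hq))]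
  refine sum_congr rfl fun u hu => ?_
  have hu' : u < q := mem_range.1 hu
  have h3 : (Ioc N (N + h)).filter (fun n => n % q = u) =
      (Ioc N (N + h)).filter (fun n => n ≡ u [MOD q]) := by
    refine filter_congr fun n _ => ?_
    unfold Nat.ModEq
    rw [Nat.mod_eq_of_lt hu']
  have h4 : dsc N h q u - eu z N h q u =
      ∑ n ∈ (Ioc N (N + h)).filter (fun n => n ≡ u [MOD q]), (th n - lz z n) := by
    unfold dsc eu
    rw [sum_sub_distrib]
    ring
  rw [h3, h4, Complex.ofReal_sum, mul_sum]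
  refine sum_congr rfl fun n hn => ?_
  rw [ex_class n u q a hq (mem_filter.1 hn).2]
  ring

private lemma Wk_main (X z h q a N : ℕ) (ε : ℝ) (hq : 1 ≤ q) (hN : 2 * X ≤ N)
    (hN' : N + h ≤ 8 * X) (he : ∀ u, |eu z N h q u| ≤ ε) :
    ‖Wk X z h q a (N + h)‖ ^ 2 ≤
      2 * (q * ∑ u ∈ range q, dsc N h q u ^ 2) + 2 * (q * ε) ^ 2 := by
  rw [Wk_class X z h q a N hq hN hN']
  have h1 : ‖∑ u ∈ range q, ex ((u : ℝ) * ((a : ℝ) / q)) *
      ((dsc N h q u - eu z N h q u : ℝ) : ℂ)‖ ≤ ∑ u ∈ range q, |dsc N h q u| + q * ε := by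
    refine (norm_sum_le _ _).trans ?_
    calc ∑ u ∈ range q, ‖ex ((u : ℝ) * ((a : ℝ) / q)) *
          ((dsc N h q u - eu z N h q u : ℝ) : ℂ)‖ ≤
        ∑ u ∈ range q, (|dsc N h q u| + ε) := by
          refine sum_le_sum fun u _ => ?_
          rw [norm_mul, Pool.Agent.Helper48.BK.norm_ex_PS, one_mul, Complex.norm_real,
            Real.norm_eq_abs]
          exact (abs_sub _ _).trans (add_le_add le_rfl (he u))
      _ = _ := by
          rw [sum_add_distrib, sum_const, card_range, nsmul_eq_mul]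
  have h2 := pow_le_pow_left₀ (norm_nonneg _) h1 2
  refine h2.trans ?_
  have h3 : (∑ u ∈ range q, |dsc N h q u|) ^ 2 ≤ q * ∑ u ∈ range q, dsc N h q u ^ 2 := by
    have := sq_sum_le_card_mul_sum_sq (s := range q) (f := fun u => |dsc N h q u|)
    simpa [card_range, sq_abs] using this
  nlinarith [sq_nonneg (∑ u ∈ range q, |dsc N h q u| - q * ε)]

private lemma mid_sum (X z h q a : ℕ) (ε S1 S2 : ℝ) (hq : 1 ≤ q) 
    (he : ∀ N u, |eu z N h q u| ≤ ε)
    (h1 : ∀ u, ∑ N ∈ Ioc (2 * X) (2 * (2 * X)), dsc N h q u ^ 2 ≤ S1)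
    (h2 : ∀ u, ∑ N ∈ Ioc (4 * X) (2 * (4 * X)), dsc N h q u ^ 2 ≤ S2) :
    ∑ k ∈ Ioc (2 * X + h) (8 * X), ‖Wk X z h q a k‖ ^ 2 ≤
      2 * (q : ℝ) ^ 2 * (S1 + S2) + 6 * X * (2 * (q * ε) ^ 2) := by
  set G : ℕ → ℝ := fun N => 2 * (q * ∑ u ∈ range q, dsc N h q u ^ 2) + 2 * (q * ε) ^ 2 with hG
  have hG0 : ∀ N, 0 ≤ G N := by
    intro N
    have : 0 ≤ ∑ u ∈ range q, dsc N h q u ^ 2 := sum_nonneg fun u _ => sq_nonneg _
    simp only [hG]
    positivity
  have h3 : ∑ k ∈ Ioc (2 * X + h) (8 * X), ‖Wk X z h q a k‖ ^ 2 =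
      ∑ N ∈ Ioc (2 * X) (8 * X - h), ‖Wk X z h q a (N + h)‖ ^ 2 := by
    refine sum_nbij' (fun k => k - h) (fun N => N + h) ?_ ?_ ?_ ?_ ?_
    · intro k hk
      simp only [mem_Ioc] at hk ⊢
      omega
    · intro k hk
      simp only [mem_Ioc] at hk ⊢
      omega
    · intro k hk
      simp only [mem_Ioc] at hk ⊢
      omega
    · intro k hk
      simp only [mem_Ioc] at hk ⊢
      omega
    · intro k hk
      simp only [mem_Ioc] at hk
      have : k - h + h = k := by omega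
      rw [this]
  rw [h3]
  calc ∑ N ∈ Ioc (2 * X) (8 * X - h), ‖Wk X z h q a (N + h)‖ ^ 2
      ≤ ∑ N ∈ Ioc (2 * X) (8 * X - h), G N := by
        refine sum_le_sum fun N hN => ?_
        rw [mem_Ioc] at hN
        exact Wk_main X z h q a N ε hq (by omega) (by omega) (he N)
    _ ≤ ∑ N ∈ Ioc (2 * X) (8 * X), G N := by
        refine sum_le_sum_of_subset_of_nonneg ?_ fun N _ _ => hG0 N
        intro N hN
        rw [mem_Ioc] at hN ⊢
        omega
    _ = 2 * (q * ∑ u ∈ range q, ∑ N ∈ Ioc (2 * X) (8 * X), dsc N h q u ^ 2) +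
        6 * X * (2 * (q * ε) ^ 2) := by
        simp only [hG]
        rw [sum_add_distrib, sum_const, Nat.card_Ioc, ← mul_sum, ← mul_sum, sum_comm,
          nsmul_eq_mul]
        have : ((8 * X - 2 * X : ℕ) : ℝ) = 6 * X := by
          have : 8 * X - 2 * X = 6 * X := by omega
          rw [this]
          push_cast
          ring
        rw [this]
    _ ≤ 2 * (q * ∑ u ∈ range q, (S1 + S2)) + 6 * X * (2 * (q * ε) ^ 2) := by
        gcongr with u _
        rw [← sum_Ioc_consecutive (fun N => dsc N h q u ^ 2) (by omega : 2 * X ≤ 4 * X)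
          (by omega : 4 * X ≤ 8 * X)]
        have e1 : 4 * X = 2 * (2 * X) := by ring
        have e2 : 8 * X = 2 * (4 * X) := by ring
        have h4 := h1 u
        have h5 := h2 u
        rw [← e1] at h4
        rw [← e2] at h5
        linarith
    _ = _ := by
        rw [sum_const, card_range, nsmul_eq_mul]
        ring

private lemma ev_wsm (c : ℝ) (hc : 0 < c) (A B : ℕ) : ∃ X₀ : ℕ, ∀ X : ℕ, X₀ ≤ X → 32 ≤ X ∧
    408 ≤ Real.log X ∧ B * Real.log (Real.log X) ≤ 2 * c * Real.log X ∧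
    16 * Real.log X ^ (A + 2) ≤ (X : ℝ) ^ (1 / 2 : ℝ) := by
  have hlog : Filter.Tendsto (fun X : ℕ => Real.log (X : ℝ)) Filter.atTop Filter.atTop :=
    Real.tendsto_log_atTop.comp tendsto_natCast_atTop_atTop
  have e1 : ∀ᶠ X : ℕ in Filter.atTop, 32 ≤ X := Filter.eventually_ge_atTop 32
  have e2 : ∀ᶠ X : ℕ in Filter.atTop, 408 ≤ Real.log (X : ℝ) := hlog.eventually_ge_atTop 408
  have e3 : ∀ᶠ X : ℕ in Filter.atTop, B * Real.log (Real.log X) ≤ 2 * c * Real.log X := by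
    have h1 : Real.log =o[Filter.atTop] (id : ℝ → ℝ) := Real.isLittleO_log_id_atTop
    have hB : (0 : ℝ) < 2 * c / (B + 1) := by positivity
    have h2 := h1.bound hB
    have h3 := hlog.eventually h2
    filter_upwards [h3, e2] with X hX hX2
    have hL : 0 < Real.log (X : ℝ) := by linarith
    have hLL : 0 ≤ Real.log (Real.log (X : ℝ)) := Real.log_nonneg (by linarith)
    rw [Real.norm_eq_abs, Real.norm_eq_abs, id, abs_of_nonneg hLL, abs_of_pos hL] at hX
    have h4 : (B : ℝ) * Real.log (Real.log X) ≤ (B + 1) * Real.log (Real.log X) := by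
      nlinarith
    refine h4.trans ?_
    have h5 : ((B : ℝ) + 1) * (2 * c / (B + 1) * Real.log X) = 2 * c * Real.log X := by
      field_simp
    rw [← h5]
    exact mul_le_mul_of_nonneg_left hX (by positivity)
  have e4 : ∀ᶠ X : ℕ in Filter.atTop, 16 * Real.log X ^ (A + 2) ≤ (X : ℝ) ^ (1 / 2 : ℝ) := by
    have h1 := isLittleO_log_rpow_rpow_atTop (A + 2 : ℝ) (by norm_num : (0 : ℝ) < 1 / 2)
    have h2 := h1.bound (by norm_num : (0 : ℝ) < 1 / 16)
    have h3 := (tendsto_natCast_atTop_atTop (R := ℝ)).eventually h2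
    filter_upwards [h3, e2] with X hX hX2
    have hL : 0 < Real.log (X : ℝ) := by linarith
    have h4 : Real.log (X : ℝ) ^ ((A : ℝ) + 2) = Real.log X ^ (A + 2) := by
      rw [← Real.rpow_natCast]
      push_cast
      rfl
    rw [h4, Real.norm_eq_abs, Real.norm_eq_abs, abs_of_nonneg (by positivity),
      abs_of_nonneg (by positivity)] at hX
    linarith
  obtain ⟨X₀, h⟩ := Filter.eventually_atTop.1 (e1.and (e2.and (e3.and e4)))
  exact ⟨X₀, fun X hX => h X hX⟩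

private lemma alg_bd (X h L : ℝ) (A : ℕ) (hL : 0 < L) (h1 : 16 * h * L ^ (A + 2) ≤ X) :
    h * (h * (2 * L)) ^ 2 ≤ X * h ^ 2 / L ^ A / 4 := by
  rw [div_div, le_div_iff₀ (by positivity)]
  calc h * (h * (2 * L)) ^ 2 * (L ^ A * 4) = (16 * h * L ^ (A + 2)) * h ^ 2 := by
        rw [pow_add]
        ring
    _ ≤ X * h ^ 2 := mul_le_mul_of_nonneg_right h1 (by positivity)

private lemma alg_mid (X h q L : ℝ) (A B : ℕ) (hX : 0 ≤ X) (hL : 408 ≤ L) (hq0 : 0 ≤ q)
    (hq : q ≤ L ^ B) :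
    2 * q ^ 2 * (2 * X * (16 * h ^ 2) / L ^ (A + 2 * B + 1) +
      4 * X * (16 * h ^ 2) / L ^ (A + 2 * B + 1)) +
      6 * X * (2 * (q * (h / L ^ (A + 2 * B + 1))) ^ 2) ≤ X * h ^ 2 / L ^ A / 2 := by
  have hL0 : 0 < L := by linarith
  have hL1 : 1 ≤ L := by linarith
  set M : ℝ := L ^ (A + 2 * B + 1) with hM
  have hMpos : 0 < M := by positivity
  have hM1 : 1 ≤ M := one_le_pow₀ hL1
  have hLA : 0 < L ^ A := by positivity
  have hq2 : q ^ 2 ≤ L ^ (2 * B) := by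
    have := pow_le_pow_left₀ hq0 hq 2
    rwa [← pow_mul, mul_comm B 2] at this
  have hMe : M = L ^ A * L ^ (2 * B) * L := by
    rw [hM, pow_succ, pow_add]
  have h1 : 6 * X * (2 * (q * (h / M)) ^ 2) ≤ 12 * X * h ^ 2 * (q ^ 2 / M) := by
    have h2 : (1 : ℝ) / (M * M) ≤ 1 / M := by
      refine one_div_le_one_div_of_le hMpos ?_
      nlinarith
    calc 6 * X * (2 * (q * (h / M)) ^ 2) = 12 * X * h ^ 2 * q ^ 2 * (1 / (M * M)) := by
          rw [mul_pow, div_pow, pow_two M]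
          ring
      _ ≤ 12 * X * h ^ 2 * q ^ 2 * (1 / M) := mul_le_mul_of_nonneg_left h2 (by positivity)
      _ = _ := by ring
  have h3 : 2 * q ^ 2 * (2 * X * (16 * h ^ 2) / M + 4 * X * (16 * h ^ 2) / M) =
      192 * X * h ^ 2 * (q ^ 2 / M) := by
    ring
  have h4 : q ^ 2 / M ≤ 1 / (L ^ A * L) := by
    rw [hMe, div_le_div_iff₀ (by positivity) (by positivity)]
    calc q ^ 2 * (L ^ A * L) ≤ L ^ (2 * B) * (L ^ A * L) :=
          mul_le_mul_of_nonneg_right hq2 (by positivity)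
      _ = _ := by ring
  have h5 : 1 / (L ^ A * L) ≤ 1 / (L ^ A * 408) :=
    one_div_le_one_div_of_le (by positivity) (mul_le_mul_of_nonneg_left hL hLA.le)
  calc _ ≤ 192 * X * h ^ 2 * (q ^ 2 / M) + 12 * X * h ^ 2 * (q ^ 2 / M) := by
        rw [h3]
        linarith
    _ = 204 * X * h ^ 2 * (q ^ 2 / M) := by ring
    _ ≤ 204 * X * h ^ 2 * (1 / (L ^ A * 408)) :=
        mul_le_mul_of_nonneg_left (h4.trans h5) (by positivity)
    _ = X * h ^ 2 / L ^ A / 2 := by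
        rw [one_div, mul_inv, div_div, div_eq_mul_inv, mul_inv]
        ring

theorem hWSM (hWinu : StWinu) (hAps : StAps) (hVz : Pool.Agent.Helper48.BK.StVz) : StWsm := by
  intro κ hκ1 hκ2 A B
  obtain ⟨c, hc, hV⟩ := hVz
  obtain ⟨X1, hX1⟩ := ev_wsm c hc A B
  obtain ⟨X2, hX2⟩ := hWinu κ hκ1 hκ2 (A + 2 * B + 1) B
  obtain ⟨X3, hX3⟩ := hAps (A + 2 * B + 1) B
  refine ⟨X1 + X2 + X3, ?_⟩
  intro X z h q a hX hz hzL hh hq hqz
  obtain ⟨g1, g2, g3, g4⟩ := hX1 X (by omega)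
  set L : ℝ := Real.log X with hLdef
  have hL : 0 < L := by linarith
  have hL1 : 1 ≤ L := by linarith
  have hX0 : (0 : ℝ) < X := by
    have : 0 < X := by omega
    exact_mod_cast this
  have hX32 : (32 : ℝ) ≤ X := by exact_mod_cast g1
  have hXone : (1 : ℝ) ≤ X := by linarith
  -- powers
  set P : ℝ := (X : ℝ) ^ κ with hP
  have hPpos : 0 < P := Real.rpow_pos_of_pos hX0 _
  set R : ℝ := (X : ℝ) ^ (1 / 5 : ℝ) with hR
  have hR2 : 2 ≤ R := by
    have h1 : (32 : ℝ) ^ (1 / 5 : ℝ) = 2 := by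
      rw [show (32 : ℝ) = 2 ^ (5 : ℝ) by norm_num, ← Real.rpow_mul (by norm_num)]
      norm_num
    rw [← h1]
    exact Real.rpow_le_rpow (by norm_num) hX32 (by norm_num)
  have hPR : R * R ≤ P := by
    rw [hR, ← Real.rpow_add hX0]
    exact Real.rpow_le_rpow_of_exponent_le hXone (by linarith)
  have hP4 : 4 ≤ P := by nlinarith
  have hhP : (h : ℝ) ≤ P := by
    rw [hh]
    exact Nat.floor_le hPpos.le
  have hPh : P < h + 1 := by
    rw [hh]
    exact Nat.lt_floor_add_one P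
  have hP2h : P ≤ 2 * h := by linarith
  have hh1 : (1 : ℝ) ≤ h := by linarith
  have hRh : R ≤ h := by nlinarith
  set Y : ℝ := (X : ℝ) ^ (1 / 2 : ℝ) with hY
  have hYpos : 0 < Y := Real.rpow_pos_of_pos hX0 _
  have hYY : Y * Y = X := by
    rw [hY, ← Real.rpow_add hX0]
    norm_num
  have hPY : P ≤ Y := Real.rpow_le_rpow_of_exponent_le hXone hκ2.le
  have hYX : Y ≤ X := by
    rw [← hYY]
    have : 1 ≤ Y := by linarith
    nlinarith
  have hhX : h ≤ X := by
    have : (h : ℝ) ≤ X := by linarith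
    exact_mod_cast this
  -- the bound for the terms
  have hlz : 1 / Vz z ≤ 2 * L := by
    have h1 := hV z hz
    have hz1 : (1 : ℝ) < z := by
      have : 1 < z := by omega
      exact_mod_cast this
    have hlz : 0 < Real.log z := Real.log_pos hz1
    have h2 : 0 < c / Real.log z := div_pos hc hlz
    have h3 : 1 / Vz z ≤ 1 / (c / Real.log z) := one_div_le_one_div_of_le h2 h1
    have h4 : Real.log z ≤ B * Real.log L := by
      have := Real.log_le_log (by linarith) hzL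
      rwa [Real.log_pow] at this
    have h5 : 1 / (c / Real.log z) = Real.log z / c := by field_simp
    rw [h5] at h3
    refine h3.trans ?_
    rw [div_le_iff₀ hc]
    linarith
  have hl8 : Real.log (8 * X) ≤ 2 * L := by
    have h1 : Real.log (8 * X) ≤ Real.log (X * X) :=
      Real.log_le_log (by positivity) (by nlinarith)
    rw [Real.log_mul hX0.ne' hX0.ne'] at h1
    linarith
  -- WINU
  have hlog2 : L ≤ Real.log ((2 * X : ℕ) : ℝ) := by
    refine Real.log_le_log hX0 ?_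
    push_cast
    linarith
  have hlog4 : L ≤ Real.log ((4 * X : ℕ) : ℝ) := by
    refine Real.log_le_log hX0 ?_
    push_cast
    linarith
  have hqL : (q : ℝ) ≤ L ^ B := le_trans (by exact_mod_cast hqz) hzL
  have hp2 : ((2 * X : ℕ) : ℝ) ^ κ ≤ 4 * h := by
    push_cast
    rw [Real.mul_rpow (by norm_num) hX0.le]
    have h1 : (2 : ℝ) ^ κ ≤ 2 := by
      calc (2 : ℝ) ^ κ ≤ 2 ^ (1 : ℝ) := Real.rpow_le_rpow_of_exponent_le (by norm_num) (by linarith)
        _ = 2 := Real.rpow_one 2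
    calc (2 : ℝ) ^ κ * P ≤ 2 * P := mul_le_mul_of_nonneg_right h1 hPpos.le
      _ ≤ 4 * h := by linarith
  have hp4 : ((4 * X : ℕ) : ℝ) ^ κ ≤ 4 * h := by
    push_cast
    rw [Real.mul_rpow (by norm_num) hX0.le]
    have h1 : (4 : ℝ) ^ κ ≤ 2 := by
      calc (4 : ℝ) ^ κ ≤ 4 ^ (1 / 2 : ℝ) :=
            Real.rpow_le_rpow_of_exponent_le (by norm_num) hκ2.le
        _ = 2 := by
            rw [show (4 : ℝ) = 2 ^ (2 : ℝ) by norm_num, ← Real.rpow_mul (by norm_num)]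
            norm_num
    calc (4 : ℝ) ^ κ * P ≤ 2 * P := mul_le_mul_of_nonneg_right h1 hPpos.le
      _ ≤ 4 * h := by linarith
  have hP2' : P ≤ ((2 * X : ℕ) : ℝ) ^ κ := by
    refine Real.rpow_le_rpow hX0.le ?_ (by linarith)
    push_cast
    linarith
  have hP4' : P ≤ ((4 * X : ℕ) : ℝ) ^ κ := by
    refine Real.rpow_le_rpow hX0.le ?_ (by linarith)
    push_cast
    linarith
  set M : ℝ := L ^ (A + 2 * B + 1) with hM
  have hMpos : 0 < M := by positivity
  have hM1 : 1 ≤ M := one_le_pow₀ hL1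
  have w1 : ∀ u, ∑ N ∈ Ioc (2 * X) (2 * (2 * X)), dsc N h q u ^ 2 ≤
      2 * X * (16 * h ^ 2) / M := by
    intro u
    have h1 := hX2 (2 * X) (by omega) q u h hq
      (hqL.trans (pow_le_pow_left₀ hL.le hlog2 B)) (by linarith)
    refine h1.trans ?_
    have h2 : M ≤ Real.log ((2 * X : ℕ) : ℝ) ^ (A + 2 * B + 1) :=
      pow_le_pow_left₀ hL.le hlog2 _
    have h3 : (((2 * X : ℕ) : ℝ) ^ κ) ^ 2 ≤ 16 * h ^ 2 := by
      have := pow_le_pow_left₀ (by linarith) hp2 2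
      refine this.trans (le_of_eq ?_)
      ring
    have h4 : ((2 * X : ℕ) : ℝ) = 2 * X := by push_cast; ring
    have h5 : ((2 * X : ℕ) : ℝ) * (((2 * X : ℕ) : ℝ) ^ κ) ^ 2 ≤ 2 * X * (16 * h ^ 2) := by
      calc ((2 * X : ℕ) : ℝ) * (((2 * X : ℕ) : ℝ) ^ κ) ^ 2
          ≤ ((2 * X : ℕ) : ℝ) * (16 * h ^ 2) := mul_le_mul_of_nonneg_left h3 (by positivity)
        _ = _ := by rw [h4]
    exact div_le_div₀ (by positivity) h5 hMpos h2
  have w2 : ∀ u, ∑ N ∈ Ioc (4 * X) (2 * (4 * X)), dsc N h q u ^ 2 ≤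
      4 * X * (16 * h ^ 2) / M := by
    intro u
    have h1 := hX2 (4 * X) (by omega) q u h hq
      (hqL.trans (pow_le_pow_left₀ hL.le hlog4 B)) (by linarith)
    refine h1.trans ?_
    have h2 : M ≤ Real.log ((4 * X : ℕ) : ℝ) ^ (A + 2 * B + 1) :=
      pow_le_pow_left₀ hL.le hlog4 _
    have h3 : (((4 * X : ℕ) : ℝ) ^ κ) ^ 2 ≤ 16 * h ^ 2 := by
      have := pow_le_pow_left₀ (by linarith) hp4 2
      refine this.trans (le_of_eq ?_)
      ring
    have h4 : ((4 * X : ℕ) : ℝ) = 4 * X := by push_cast; ring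
    have h5 : ((4 * X : ℕ) : ℝ) * (((4 * X : ℕ) : ℝ) ^ κ) ^ 2 ≤ 4 * X * (16 * h ^ 2) := by
      calc ((4 * X : ℕ) : ℝ) * (((4 * X : ℕ) : ℝ) ^ κ) ^ 2
          ≤ ((4 * X : ℕ) : ℝ) * (16 * h ^ 2) := mul_le_mul_of_nonneg_left h3 (by positivity)
        _ = _ := by rw [h4]
    exact div_le_div₀ (by positivity) h5 hMpos h2
  have he : ∀ N u, |eu z N h q u| ≤ h / M := by
    intro N u
    exact hX3 X N h z q u (by omega) hRh hz hzL hq hqz
  have hmid := mid_sum X z h q a (h / M) _ _ hq he w1 w2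
  -- splitting of the sum
  have hI : Icc 1 (8 * X + h) = Ioc 0 (8 * X + h) := rfl
  have hsplit : ∑ k ∈ Icc 1 (8 * X + h), ‖Wk X z h q a k‖ ^ 2 =
      ∑ k ∈ Ioc 0 (2 * X), ‖Wk X z h q a k‖ ^ 2 +
      ∑ k ∈ Ioc (2 * X) (2 * X + h), ‖Wk X z h q a k‖ ^ 2 +
      ∑ k ∈ Ioc (2 * X + h) (8 * X), ‖Wk X z h q a k‖ ^ 2 +
      ∑ k ∈ Ioc (8 * X) (8 * X + h), ‖Wk X z h q a k‖ ^ 2 := by
    rw [hI, sum_Ioc_consecutive _ (by omega) (by omega), sum_Ioc_consecutive _ (by omega) (by omega),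
      sum_Ioc_consecutive _ (by omega) (by omega)]
  have hb : ∀ m : ℕ, ∑ k ∈ Ioc m (m + h), ‖Wk X z h q a k‖ ^ 2 ≤ h * (h * (2 * L)) ^ 2 := by
    intro m
    calc ∑ k ∈ Ioc m (m + h), ‖Wk X z h q a k‖ ^ 2
        ≤ ∑ k ∈ Ioc m (m + h), ((h : ℝ) * (2 * L)) ^ 2 :=
          sum_le_sum fun k _ => Wk_le X z h q a k (2 * L) (by linarith) hl8 hlz
      _ = h * (h * (2 * L)) ^ 2 := by
          rw [sum_const, Nat.card_Ioc, nsmul_eq_mul]
          congr 1
          have : m + h - m = h := by omega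
          rw [this]
  have h0 : ∑ k ∈ Ioc 0 (2 * X), ‖Wk X z h q a k‖ ^ 2 = 0 := by
    refine sum_eq_zero fun k hk => ?_
    rw [Wk_zero X z h q a k (mem_Ioc.1 hk).2]
    simp
  change ∑ k ∈ Icc 1 (8 * X + h), ‖Wk X z h q a k‖ ^ 2 ≤ X * (h : ℝ) ^ 2 / L ^ A
  rw [hsplit, h0]
  have hb1 := hb (2 * X)
  have hb2 := hb (8 * X)
  set T : ℝ := X * (h : ℝ) ^ 2 / L ^ A with hT
  have hLA : 0 < L ^ A := by positivity
  have hbd : (h : ℝ) * (h * (2 * L)) ^ 2 ≤ T / 4 := by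
    refine alg_bd X h L A hL ?_
    calc 16 * (h : ℝ) * L ^ (A + 2) = h * (16 * L ^ (A + 2)) := by ring
      _ ≤ Y * Y := mul_le_mul (by linarith) g4 (by positivity) hYpos.le
      _ = X := hYY
  have hmd := alg_mid X h q L A B hX0.le g2 (by positivity) hqL
  linarith

end Pool.Agent.Helper98.SK
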